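import Pool.Agent.N553.FG.Glue2

set_option autoImplicit false

open Set Metric
open scoped RealInnerProductSpace

namespace Pool.Agent.Results.MP_7f706e_gt.FlatGrazes

/-- convex body in `ℝⁿ`: compact, convex, with nonempty interior -/
def IsConvexBody {n : ℕ} (M : Set (EuclideanSpace ℝ (Fin n))) : Prop :=
  IsCompact M ∧ Convex ℝ M ∧ (interior M).Nonempty

/-- `L` is a support line to `M` through `x`: an affine line containing `x` which meets `M`
but not the interior of `M` -/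
def IsSupportLine {n : ℕ} (M : Set (EuclideanSpace ℝ (Fin n))) (x : EuclideanSpace ℝ (Fin n))
    (L : AffineSubspace ℝ (EuclideanSpace ℝ (Fin n))) : Prop :=
  Module.finrank ℝ L.direction = 1 ∧ x ∈ L ∧
    ((L : Set (EuclideanSpace ℝ (Fin n))) ∩ M).Nonempty ∧
    (L : Set (EuclideanSpace ℝ (Fin n))) ∩ interior M = ∅

/-- the graze of `M` from `x`: the points of `M` on the support lines to `M` through `x` -/
def graze {n : ℕ} (M : Set (EuclideanSpace ℝ (Fin n))) (x : EuclideanSpace ℝ (Fin n)) :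
    Set (EuclideanSpace ℝ (Fin n)) :=
  {y | ∃ L : AffineSubspace ℝ (EuclideanSpace ℝ (Fin n)), IsSupportLine M x L ∧
    y ∈ (L : Set (EuclideanSpace ℝ (Fin n))) ∩ M}

/-- flat: contained in an affine hyperplane `{y | ⟪a, y⟫ = c}` with `a ≠ 0` -/
def IsFlat {n : ℕ} (S : Set (EuclideanSpace ℝ (Fin n))) : Prop :=
  ∃ (a : EuclideanSpace ℝ (Fin n)) (c : ℝ), a ≠ 0 ∧ S ⊆ {y | ⟪a, y⟫ = c}

/-- ellipsoid: image of the closed unit ball under an invertible affine map -/
def IsEllipsoid {n : ℕ} (M : Set (EuclideanSpace ℝ (Fin n))) : Prop :=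
  ∃ T : EuclideanSpace ℝ (Fin n) ≃ᵃ[ℝ] EuclideanSpace ℝ (Fin n),
    M = T '' closedBall (0 : EuclideanSpace ℝ (Fin n)) 1

theorem raw_mem {n : ℕ} {M : Set (EuclideanSpace ℝ (Fin n))} {x y : EuclideanSpace ℝ (Fin n)}
    (hx : x ∉ M) (hy : y ∈ M) (h : ∀ t : ℝ, x + t • (y - x) ∉ interior M) : y ∈ graze M x := by
  have hne : y - x ≠ 0 := sub_ne_zero.2 (by rintro rfl; exact hx hy)
  have hmem : ∀ z, z ∈ AffineSubspace.mk' x (Submodule.span ℝ {y - x}) ↔
      ∃ t : ℝ, z = x + t • (y - x) := by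
    intro z
    rw [AffineSubspace.mem_mk', vsub_eq_sub, Submodule.mem_span_singleton]
    constructor
    · rintro ⟨t, ht⟩; exact ⟨t, by rw [ht]; abel⟩
    · rintro ⟨t, rfl⟩; exact ⟨t, by abel⟩
  have hyL : y ∈ AffineSubspace.mk' x (Submodule.span ℝ {y - x}) :=
    (hmem y).2 ⟨1, by rw [one_smul]; abel⟩
  refine ⟨AffineSubspace.mk' x (Submodule.span ℝ {y - x}), ⟨?_, ?_, ⟨y, hyL, hy⟩, ?_⟩, hyL, hy⟩
  · rw [AffineSubspace.direction_mk', finrank_span_singleton hne]
  · exact AffineSubspace.self_mem_mk' _ _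
  · rw [Set.eq_empty_iff_forall_notMem]
    rintro z ⟨hz, hz'⟩
    obtain ⟨t, rfl⟩ := (hmem z).1 hz
    exact h t hz'

/-- **Flat grazes from a surrounding convex surface.** -/
theorem result (n : ℕ) (hn : 3 ≤ n) (M K : Set (EuclideanSpace ℝ (Fin n)))
    (hM : IsConvexBody M) (hK : IsConvexBody K) (hMK : M ⊆ interior K)
    (hflat : ∀ x ∈ frontier K, IsFlat (graze M x)) : IsEllipsoid M := by
  have bM : N553.FG.Body M := ⟨hM.1, hM.2.1, hM.2.2⟩
  have bK : N553.FG.Body K := ⟨hK.1, hK.2.1, hK.2.2⟩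
  have hraw : N553.FG.RawFlat M K := by
    intro x hx
    obtain ⟨a, c, ha, hS⟩ := hflat x hx
    have hxM : x ∉ M := by
      intro h
      rw [bK.cpt.isClosed.frontier_eq] at hx
      exact hx.2 (hMK h)
    exact ⟨a, c, ha, fun y hy hyt => hS (raw_mem hxM hy hyt)⟩
  obtain ⟨φ, c₀, r, hr, hmem⟩ := N553.FG.main_glue (by rw [finrank_euclideanSpace_fin]; exact hn)
    bM bK hMK hraw (finrank_euclideanSpace_fin (𝕜 := ℝ) (n := n))
  refine ⟨((LinearEquiv.smulOfNeZero ℝ (EuclideanSpace ℝ (Fin n)) r hr.ne').trans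
    φ.symm).toAffineEquiv.trans (AffineEquiv.constVAdd ℝ (EuclideanSpace ℝ (Fin n)) c₀), ?_⟩
  have hT : ∀ w : EuclideanSpace ℝ (Fin n),
      (((LinearEquiv.smulOfNeZero ℝ (EuclideanSpace ℝ (Fin n)) r hr.ne').trans
        φ.symm).toAffineEquiv.trans
        (AffineEquiv.constVAdd ℝ (EuclideanSpace ℝ (Fin n)) c₀)) w = c₀ + φ.symm (r • w) := by
    intro w; rfl
  ext y
  rw [hmem, mem_image]
  constructor
  · intro h
    refine ⟨r⁻¹ • φ (y - c₀), ?_, ?_⟩
    · rw [mem_closedBall_zero_iff, norm_smul, norm_inv, Real.norm_of_nonneg hr.le,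
        inv_mul_le_iff₀ hr, mul_one]
      exact h
    · rw [hT, smul_smul, mul_inv_cancel₀ hr.ne', one_smul, LinearEquiv.symm_apply_apply]
      abel
  · rintro ⟨w, hw, rfl⟩
    rw [mem_closedBall_zero_iff] at hw
    rw [hT, add_sub_cancel_left, LinearEquiv.apply_symm_apply, norm_smul,
      Real.norm_of_nonneg hr.le]
    calc r * ‖w‖ ≤ r * 1 := mul_le_mul_of_nonneg_left hw hr.le
      _ = r := mul_one r

end Pool.Agent.Results.MP_7f706e_gt.FlatGrazes
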